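import Pool.Agent.N298.HS.StmB

/-!
# HS/REAL: almost invariant measures on the torus (ping-pong)
-/

set_option autoImplicit false

namespace Pool.Agent.N558.HS

open MeasureTheory Complex

/-- one step of the ping-pong -/
theorem half {Ω : Type*} [MeasurableSpace Ω] (ν : Measure Ω) [IsProbabilityMeasure ν] (ε : ℝ)
    (f g : Ω → ℝ) (hf : Measurable f) (hg : Measurable g) (S : Set Ω)
    (hS : ν.real Sᶜ ≤ 2 * ε) (Tp Tm : Ω → Ω)
    (hTp : ∀ E, MeasurableSet E → |ν.real E - ν.real (Tp ⁻¹' E)| ≤ ε)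
    (hTm : ∀ E, MeasurableSet E → |ν.real E - ν.real (Tm ⁻¹' E)| ≤ ε)
    (hp : ∀ᵐ x ∂ν, x ∈ S → f (Tp x) = f x + 2 * g x ∧ g (Tp x) = g x)
    (hm : ∀ᵐ x ∂ν, x ∈ S → f (Tm x) = f x - 2 * g x ∧ g (Tm x) = g x) :
    2 * ν.real ({x | |f x| ≤ |g x| ∧ g x ≠ 0} ∩ S) - 4 * ε ≤
      ν.real ({x | |g x| ≤ |f x| ∧ f x ≠ 0} ∩ S) := by
  have hFp : MeasurableSet {x | |g x| ≤ |f x| ∧ 0 < f x * g x} :=
    (measurableSet_le hg.abs hf.abs).inter (measurableSet_lt measurable_const (hf.mul hg))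
  have hFm : MeasurableSet {x | |g x| ≤ |f x| ∧ f x * g x < 0} :=
    (measurableSet_le hg.abs hf.abs).inter (measurableSet_lt (hf.mul hg) measurable_const)
  set Fp : Set Ω := {x | |g x| ≤ |f x| ∧ 0 < f x * g x} with hFp'
  set Fm : Set Ω := {x | |g x| ≤ |f x| ∧ f x * g x < 0} with hFm'
  set P : Set Ω := {x | |f x| ≤ |g x| ∧ g x ≠ 0} ∩ S with hP'
  set P' : Set Ω := {x | |g x| ≤ |f x| ∧ f x ≠ 0} ∩ S with hP''
  have e1 : ν.real P ≤ ν.real (Tp ⁻¹' Fp) := by
    refine ENNReal.toReal_mono (measure_ne_top _ _) (measure_mono_ae ?_)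
    filter_upwards [hp] with x hx hxP
    obtain ⟨⟨h1, h2⟩, h3⟩ := hxP
    obtain ⟨h4, h5⟩ := hx h3
    show |g (Tp x)| ≤ |f (Tp x)| ∧ 0 < f (Tp x) * g (Tp x)
    rw [h4, h5]
    rcases lt_or_gt_of_ne h2 with h6 | h6
    · rw [abs_of_neg h6] at h1 ⊢
      rw [abs_le] at h1
      constructor
      · rw [abs_of_nonpos (by linarith)]; linarith
      · nlinarith
    · rw [abs_of_pos h6] at h1 ⊢
      rw [abs_le] at h1
      constructor
      · rw [abs_of_nonneg (by linarith)]; linarith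
      · nlinarith
  have e2 : ν.real P ≤ ν.real (Tm ⁻¹' Fm) := by
    refine ENNReal.toReal_mono (measure_ne_top _ _) (measure_mono_ae ?_)
    filter_upwards [hm] with x hx hxP
    obtain ⟨⟨h1, h2⟩, h3⟩ := hxP
    obtain ⟨h4, h5⟩ := hx h3
    show |g (Tm x)| ≤ |f (Tm x)| ∧ f (Tm x) * g (Tm x) < 0
    rw [h4, h5]
    rcases lt_or_gt_of_ne h2 with h6 | h6
    · rw [abs_of_neg h6] at h1 ⊢
      rw [abs_le] at h1
      constructor
      · rw [abs_of_nonneg (by linarith)]; linarith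
      · nlinarith
    · rw [abs_of_pos h6] at h1 ⊢
      rw [abs_le] at h1
      constructor
      · rw [abs_of_nonpos (by linarith)]; linarith
      · nlinarith
  have e3 := abs_le.1 (hTp Fp hFp)
  have e4 := abs_le.1 (hTm Fm hFm)
  have e5 : ν.real (Fp ∪ Fm) = ν.real Fp + ν.real Fm := by
    refine measureReal_union ?_ hFm
    rw [Set.disjoint_left]
    rintro x ⟨_, h1⟩ ⟨_, h2⟩
    exact lt_irrefl _ (h1.trans h2)
  have e6 : ν.real (Fp ∪ Fm) ≤ ν.real P' + ν.real Sᶜ := by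
    refine (measureReal_mono ?_).trans (measureReal_union_le _ _)
    intro x hx
    by_cases hxS : x ∈ S
    · left
      refine ⟨?_, hxS⟩
      rcases hx with ⟨h1, h2⟩ | ⟨h1, h2⟩
      · exact ⟨h1, fun h => by rw [h] at h2; simp at h2⟩
      · exact ⟨h1, fun h => by rw [h] at h2; simp at h2⟩
    · right
      exact hxS
  linarith [e3.1, e3.2, e4.1, e4.2]

/-- small arguments -/
theorem arg_small {z : ℂ} (h1 : ‖z‖ = 1) (h2 : ‖z - 1‖ < 1 / 10) : |arg z| < 1 / 4 := by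
  have h3 := Complex.mul_angle_le_norm_sub h1 (norm_one (α := ℂ))
  have h0 : z ≠ 0 := fun h => by rw [h] at h1; simp at h1
  rw [Complex.angle_eq_abs_arg h0 one_ne_zero, div_one] at h3
  have h4 : 2 / Real.pi * |arg z| < 1 / 10 := h3.trans_lt h2
  have hpi := Real.pi_pos
  have hpi4 := Real.pi_lt_four
  have h5 : 2 * |arg z| < Real.pi / 10 := by
    have := mul_lt_mul_of_pos_left h4 hpi
    have h6 : Real.pi * (2 / Real.pi * |arg z|) = 2 * |arg z| := by
      field_simp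
    linarith
  linarith

theorem arg_step {z w : ℂ} (hz : ‖z‖ = 1) (hw : ‖w‖ = 1) (hz' : ‖z - 1‖ < 1 / 10)
    (hw' : ‖w - 1‖ < 1 / 10) : arg (z * w ^ 2) = arg z + 2 * arg w := by
  have h1 := abs_lt.1 (arg_small hz hz')
  have h2 := abs_lt.1 (arg_small hw hw')
  have hz0 : z ≠ 0 := fun h => by rw [h] at hz; simp at hz
  have hw0 : w ≠ 0 := fun h => by rw [h] at hw; simp at hw
  have hpi := Real.pi_gt_three
  have h3 : arg (w ^ 2) = 2 * arg w := by
    rw [pow_two, Complex.arg_mul hw0 hw0 ⟨by linarith [h2.1], by linarith [h2.2]⟩]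
    ring
  rw [Complex.arg_mul hz0 (pow_ne_zero 2 hw0), h3]
  rw [h3]
  exact ⟨by linarith [h1.1, h2.1], by linarith [h1.2, h2.2]⟩

theorem arg_step' {z w : ℂ} (hz : ‖z‖ = 1) (hw : ‖w‖ = 1) (hz' : ‖z - 1‖ < 1 / 10)
    (hw' : ‖w - 1‖ < 1 / 10) :
    arg (z * (starRingEnd ℂ w) ^ 2) = arg z - 2 * arg w := by
  have h2 := abs_lt.1 (arg_small hw hw')
  have hpi := Real.pi_gt_three
  have h3 : arg (starRingEnd ℂ w) = - arg w := by
    rw [Complex.arg_conj, if_neg (by linarith [h2.2])]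
  have h4 : ‖starRingEnd ℂ w‖ = 1 := by rw [Complex.norm_conj, hw]
  have h5 : ‖starRingEnd ℂ w - 1‖ < 1 / 10 := by
    have : starRingEnd ℂ w - 1 = starRingEnd ℂ (w - 1) := by simp
    rw [this, Complex.norm_conj]
    exact hw'
  rw [arg_step hz h4 hz' h5, h3]
  ring

theorem eq_one_of_arg {z : ℂ} (hz : ‖z‖ = 1) (h : arg z = 0) : z = 1 := by
  have h1 := Complex.norm_mul_exp_arg_mul_I z
  rw [hz, h] at h1
  simpa using h1.symm

theorem t_real : Pool.Agent.N298.HS.S_REAL := by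
  refine ⟨10, by norm_num, ?_⟩
  intro ν _ ε hε hun h1 h2 hT
  set S : Set (ℂ × ℂ) := {z | ‖z.1 - 1‖ < 1 / 10 ∧ ‖z.2 - 1‖ < 1 / 10} with hS'
  have hS : ν.real Sᶜ ≤ 2 * ε := by
    refine (measureReal_mono (s₂ := {z | 1 / 10 ≤ ‖z.1 - 1‖} ∪ {z | 1 / 10 ≤ ‖z.2 - 1‖})
      ?_).trans ((measureReal_union_le _ _).trans (by linarith))
    intro z hz
    by_contra hcon
    simp only [Set.mem_union, Set.mem_ofPred_eq, not_or, not_le] at hcon
    exact hz hcon
  have hf : Measurable fun z : ℂ × ℂ => arg z.1 := Complex.measurable_arg.comp measurable_fst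
  have hg : Measurable fun z : ℂ × ℂ => arg z.2 := Complex.measurable_arg.comp measurable_snd
  have A := half ν ε (fun z => arg z.1) (fun z => arg z.2) hf hg S hS
    (fun z => (z.1 * z.2 ^ 2, z.2)) (fun z => (z.1 * (starRingEnd ℂ z.2) ^ 2, z.2))
    (fun E hE => (hT E hE).2.2.1) (fun E hE => (hT E hE).2.2.2)
    (by
      filter_upwards [hun] with z hz hzS
      exact ⟨arg_step hz.1 hz.2 hzS.1 hzS.2, rfl⟩)
    (by
      filter_upwards [hun] with z hz hzS
      exact ⟨arg_step' hz.1 hz.2 hzS.1 hzS.2, rfl⟩)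
  have B := half ν ε (fun z => arg z.2) (fun z => arg z.1) hg hf S hS
    (fun z => (z.1, z.2 * z.1 ^ 2)) (fun z => (z.1, z.2 * (starRingEnd ℂ z.1) ^ 2))
    (fun E hE => (hT E hE).1) (fun E hE => (hT E hE).2.1)
    (by
      filter_upwards [hun] with z hz hzS
      exact ⟨arg_step hz.2 hz.1 hzS.2 hzS.1, rfl⟩)
    (by
      filter_upwards [hun] with z hz hzS
      exact ⟨arg_step' hz.2 hz.1 hzS.2 hzS.1, rfl⟩)
  have Cc : ν.real {z | z ≠ (1, 1)} ≤ ν.real (({x : ℂ × ℂ | |arg x.1| ≤ |arg x.2| ∧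
      arg x.2 ≠ 0} ∩ S) ∪ ({x : ℂ × ℂ | |arg x.2| ≤ |arg x.1| ∧ arg x.1 ≠ 0} ∩ S) ∪ Sᶜ) := by
    refine ENNReal.toReal_mono (measure_ne_top _ _) (measure_mono_ae ?_)
    filter_upwards [hun] with z hz hzne
    by_cases hzS : z ∈ S
    · left
      rcases le_total |arg z.1| |arg z.2| with h | h
      · left
        refine ⟨⟨h, fun h0 => hzne ?_⟩, hzS⟩
        have h00 : arg z.1 = 0 := by
          rw [h0, abs_zero] at h
          exact abs_eq_zero.1 (le_antisymm h (abs_nonneg _))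
        exact Prod.ext (eq_one_of_arg hz.1 h00) (eq_one_of_arg hz.2 h0)
      · right
        refine ⟨⟨h, fun h0 => hzne ?_⟩, hzS⟩
        have h00 : arg z.2 = 0 := by
          rw [h0, abs_zero] at h
          exact abs_eq_zero.1 (le_antisymm h (abs_nonneg _))
        exact Prod.ext (eq_one_of_arg hz.1 h0) (eq_one_of_arg hz.2 h00)
    · right
      exact hzS
  have D := Cc.trans ((measureReal_union_le _ _).trans
    (add_le_add_left (measureReal_union_le _ _) _))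
  linarith

end Pool.Agent.N558.HS
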